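import Pool.Agent.Helper52_ABA.LStmts

/-! # Gauss-Bonnet for nonsingular discs -/

namespace Pool.Agent.ABA.B.H31

open Pool.Agent.ABA.B Pool.Agent.ABA.B.TG

variable {V E : Type} {S : TG V E}

theorem ow_cons {θ : E → E → ℝ} {a b : E} {l : List E} (h : l.head? = some b) :
    ow θ (a :: l) = θ a b + ow θ l := by
  cases l with
  | nil => simp at h
  | cons c l =>
    simp only [List.head?_cons, Option.some.injEq] at h
    subst h
    rfl

theorem ow_append {θ : E → E → ℝ} {a b : E} {l l' : List E} (h : l.getLast? = some a)
    (h' : l'.head? = some b) : ow θ (l ++ l') = ow θ l + θ a b + ow θ l' := by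
  induction l with
  | nil => simp at h
  | cons c l ih =>
    cases l with
    | nil =>
      simp only [List.getLast?_singleton, Option.some.injEq] at h
      subst h
      rw [List.singleton_append, ow_cons h']
      simp [ow]
    | cons d l =>
      have h1 : (d :: l).getLast? = some a := by
        rw [List.getLast?_cons_cons] at h
        exact h
      have := ih h1
      simp only [List.cons_append, ow] at this ⊢
      rw [this]
      ring

theorem ow_reverse {θ : E → E → ℝ} (hs : ∀ a b, θ a b = θ b a) (l : List E) :
    ow θ l.reverse = ow θ l := by
  induction l with
  | nil => rfl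
  | cons a l ih =>
    cases l with
    | nil => rfl
    | cons b l =>
      rw [List.reverse_cons]
      have h1 : (b :: l).reverse.getLast? = some b := by simp
      rw [ow_append h1 (show [a].head? = some a from rfl), ih]
      simp only [ow]
      rw [hs b a]
      ring

theorem basic {e : E} {α : List E} {n : ℕ} {X Y : List E} {J I : List (List E)}
    (h : S.NS e α n X Y J I) :
    α ≠ [] ∧ J.length + 1 = α.length ∧ X.head? = some e ∧ X.getLast? = α.head? ∧
    Y.head? = some (S.inv e) ∧ Y.getLast? = (α.getLast?).map S.inv ∧
    (∀ (i : ℕ) (v : List E), J[i]? = some v → v.getLast? = α[i + 1]?) ∧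
    (∀ (i : ℕ) (v : List E), J[i]? = some v → v.head? = Option.map S.inv (α[i]?)) := by
  induction h with
  | triv e => simp
  | @tb e e' e'' α' α'' n' n'' X' Y' X'' Y'' J' I' J'' I'' ht h1 h2 ih1 ih2 =>
    obtain ⟨a1, b1, c1, d1, e1, f1, g1, i1⟩ := ih1
    obtain ⟨a2, b2, c2, d2, e2, f2, g2, i2⟩ := ih2
    refine ⟨by simp [a1], ?_, rfl, ?_, rfl, ?_, ?_, ?_⟩
    · simp only [List.length_append, List.length_cons]
      omega
    · cases X' with
      | nil => simp at c1
      | cons x X' =>
        rw [List.getLast?_cons_cons, d1]
        cases α' with
        | nil => simp at a1
        | cons y α' => simp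
    · cases Y'' with
      | nil => simp at e2
      | cons y Y'' =>
        rw [List.getLast?_cons_cons, f2]
        rw [List.getLast?_append]
        cases hα : α''.getLast? with
        | none => rw [List.getLast?_eq_none_iff] at hα; exact absurd hα a2
        | some z => simp
    · intro i v hv
      rcases lt_trichotomy i J'.length with hi | hi | hi
      · rw [List.getElem?_append_left hi] at hv
        rw [List.getElem?_append_left (by omega)]
        exact g1 i v hv
      · subst hi
        rw [List.getElem?_append_right (le_refl _)] at hv
        simp only [Nat.sub_self, List.getElem?_cons_zero, Option.some.injEq] at hv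
        subst hv
        rw [b1, List.getElem?_append_right (le_refl _)]
        rw [List.getLast?_append]
        cases hX : X''.getLast? with
        | none =>
          rw [List.getLast?_eq_none_iff] at hX
          rw [hX] at c2
          simp at c2
        | some z =>
          rw [hX] at d2
          simp only [Option.some_or, Nat.sub_self]
          rw [d2]
          cases α'' <;> simp
      · obtain ⟨j, rfl⟩ := Nat.exists_eq_add_of_lt hi
        rw [List.getElem?_append_right (by omega)] at hv
        rw [List.getElem?_append_right (by omega)]
        have h3 : J'.length + j + 1 - J'.length = j + 1 := by omega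
        have h4 : J'.length + j + 1 + 1 - α'.length = j + 1 := by omega
        rw [h3, List.getElem?_cons_succ] at hv
        rw [h4]
        exact g2 j v hv
    · intro i v hv
      rcases lt_trichotomy i J'.length with hi | hi | hi
      · rw [List.getElem?_append_left hi] at hv
        rw [List.getElem?_append_left (by omega)]
        exact i1 i v hv
      · subst hi
        rw [List.getElem?_append_right (le_refl _)] at hv
        simp only [Nat.sub_self, List.getElem?_cons_zero, Option.some.injEq] at hv
        subst hv
        rw [List.getElem?_append_left (by omega)]
        have h6 : α'.getLast? = α'[J'.length]? := by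
          rw [List.getLast?_eq_getElem?, ← b1, Nat.add_sub_cancel]
        rw [← h6, ← f1]
        cases Y' with
        | nil => simp at e1
        | cons y Y' =>
          rw [List.head?_append]
          simp only [List.head?_reverse]
          cases hY : (y :: Y').getLast? with
          | none => rw [List.getLast?_eq_none_iff] at hY; simp at hY
          | some z => simp
      · obtain ⟨j, rfl⟩ := Nat.exists_eq_add_of_lt hi
        rw [List.getElem?_append_right (by omega)] at hv
        rw [List.getElem?_append_right (by omega)]
        have h3 : J'.length + j + 1 - J'.length = j + 1 := by omega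
        have h4 : J'.length + j + 1 - α'.length = j := by omega
        rw [h3, List.getElem?_cons_succ] at hv
        rw [h4]
        exact i2 j v hv
  | @ta e e' e'' α n X Y v J I ht h1 hα ih =>
    obtain ⟨a1, b1, c1, d1, e1, f1, g1, i1⟩ := ih
    simp only [List.length_append, List.length_singleton] at b1
    have hJ : J.length + 1 = α.length := by omega
    have hvl : v.getLast? = some (S.inv e'') := by
      have := g1 J.length v (by simp)
      rw [this, hJ]
      simp
    have hvh : v.head? = (α.getLast?).map S.inv := by
      have := i1 J.length v (by simp)
      rw [this, List.getElem?_append_left (by omega), List.getLast?_eq_getElem?, ← hJ]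
      simp
    refine ⟨hα, hJ, rfl, ?_, rfl, ?_, ?_, ?_⟩
    · cases X with
      | nil => simp at c1
      | cons x X =>
        rw [List.getLast?_cons_cons, d1]
        cases α with
        | nil => simp at hα
        | cons y α => simp
    · cases v with
      | nil => simp at hvl
      | cons y v =>
        have h5 : (S.inv e :: (y :: v).reverse).getLast? = some y := by
          rw [List.reverse_cons, ← List.cons_append, List.getLast?_append]
          simp
        rw [h5, ← hvh]
        rfl
    · intro i w hw
      have hi : i < J.length := by
        by_contra hc
        rw [List.getElem?_eq_none (by omega)] at hw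
        simp at hw
      have := g1 i w (by rw [List.getElem?_append_left hi]; exact hw)
      rwa [List.getElem?_append_left (by omega)] at this
    · intro i w hw
      have hi : i < J.length := by
        by_contra hc
        rw [List.getElem?_eq_none (by omega)] at hw
        simp at hw
      have := i1 i w (by rw [List.getElem?_append_left hi]; exact hw)
      rwa [List.getElem?_append_left (by omega)] at this

theorem ta_last {e' e'' : E} {α : List E} {n : ℕ} {X Y v : List E} {J I : List (List E)}
    (h : S.NS e' (α ++ [S.inv e'']) n X Y (J ++ [v]) I) : v.getLast? = some (S.inv e'') := by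
  obtain ⟨a1, b1, c1, d1, e1, f1, g1, i1⟩ := basic h
  simp only [List.length_append, List.length_singleton] at b1
  have hJ : J.length + 1 = α.length := by omega
  have := g1 J.length v (by simp)
  rw [this, hJ]
  simp

theorem gb : GbStmt := by
  intro V E S θ hθ e α n X Y J I h
  induction h with
  | triv e => simp [ow]; norm_num
  | @tb e e' e'' α' α'' n' n'' X' Y' X'' Y'' J' I' J'' I'' ht h1 h2 ih1 ih2 =>
    obtain ⟨a1, b1, c1, d1, e1, f1, g1, i1⟩ := basic h1
    obtain ⟨a2, b2, c2, d2, e2, f2, g2, i2⟩ := basic h2
    have hl : Y'.reverse.getLast? = some (S.inv e') := by simp [e1]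
    rw [ow_cons c1, ow_cons e2]
    simp only [List.map_append, List.map_cons, List.sum_append, List.sum_cons]
    rw [ow_append hl c2, ow_reverse hθ.symm]
    have := hθ.tri ht
    linarith
  | @ta e e' e'' α n X Y v J I ht h1 hα ih =>
    obtain ⟨a1, b1, c1, d1, e1, f1, g1, i1⟩ := basic h1
    have hvl := ta_last h1
    have hvr : v.reverse.head? = some (S.inv e'') := by simp [hvl]
    have hYl : Y.getLast? = some e'' := by rw [f1]; simp
    have hcw : cw θ Y = ow θ Y + θ (S.inv e') e'' := by
      cases Y with
      | nil => simp at e1
      | cons y Y =>
        simp only [List.head?_cons, Option.some.injEq] at e1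
        subst e1
        unfold cw
        rw [List.take_succ_cons, List.take_zero, ow_append hYl (show [S.inv e'].head? = some (S.inv e') from rfl),
          hθ.symm e'' (S.inv e')]
        simp [ow]
    rw [ow_cons c1, ow_cons hvr, ow_reverse hθ.symm]
    simp only [List.map_append, List.map_cons, List.sum_append, List.sum_cons, List.map_nil,
      List.sum_nil] at ih ⊢
    rw [hcw]
    have := hθ.tri ht
    linarith

end Pool.Agent.ABA.B.H31
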