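import Pool.Agent.Helper52_ABA.LStmts

/-! # Pinches of closed paths -/

namespace Pool.Agent.ABA.B.H31

open Pool.Agent.ABA.B Pool.Agent.ABA.B.TG

variable {V E : Type} {S : TG V E}

theorem cl_insert {α γ β : List E} (h : S.Cl (α ++ β)) {y : V} (hα : ∀ x, S.IsP x (α ++ β) x → S.IsP x α y)
    (hγ : S.IsP y γ y) : S.Cl (α ++ γ ++ β) := by
  obtain ⟨x, hx⟩ := h
  have h1 := hα x hx
  rw [isP_append] at hx
  obtain ⟨z, h2, h3⟩ := hx
  have := h1.eq h2
  subst this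
  exact ⟨x, isP_append.2 ⟨_, isP_append.2 ⟨_, h1, hγ⟩, h3⟩⟩

/-- removing a closed nonempty subpath -/
theorem cl_remove {α γ β : List E} (h : S.Cl (α ++ γ ++ β)) (hγ : S.Cl γ) : S.Cl (α ++ β) := by
  obtain ⟨x, hx⟩ := h
  rw [isP_append] at hx
  obtain ⟨z, h1, h2⟩ := hx
  rw [isP_append] at h1
  obtain ⟨y, h3, h4⟩ := h1
  obtain ⟨u, hu⟩ := hγ
  have hyz : y = z := by
    cases γ with
    | nil => exact h4
    | cons e γ =>
      have : y = u := h4.src_eq hu
      subst this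
      exact hu.eq h4
  subst hyz
  exact ⟨x, isP_append.2 ⟨_, h3, h2⟩⟩

theorem cl_rotate {α β : List E} (h : S.Cl (α ++ β)) : S.Cl (β ++ α) := by
  obtain ⟨x, hx⟩ := h
  rw [isP_append] at hx
  obtain ⟨z, h1, h2⟩ := hx
  exact ⟨z, isP_append.2 ⟨_, h2, h1⟩⟩

/-- a shortest block inside a block is pinch-free -/
theorem shortest
    (hins : ∀ α β γ, S.Cl (α ++ γ ++ β) → S.Cl γ → S.ar (α ++ γ ++ β) ≤ S.ar (α ++ β) + S.ar γ) :
    ∀ (N : ℕ) (u p v : List E), p.length ≤ N → S.Cl (u ++ p ++ v) → S.Cl p → p ≠ [] →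
      S.ar (u ++ p ++ v) = S.ar p + S.ar (u ++ v) →
      ∃ a q b, p = a ++ q ++ b ∧ q ≠ [] ∧ S.Cl q ∧ S.PF q ∧
        S.ar (u ++ p ++ v) = S.ar q + S.ar (u ++ a ++ b ++ v) := by
  intro N
  induction N with
  | zero =>
    intro u p v hN _ _ hp
    simp only [Nat.le_zero, List.length_eq_zero_iff] at hN
    exact absurd hN hp
  | succ N ih =>
    intro u p v hN hcl hp hp0 har
    by_cases hPF : S.PF p
    · exact ⟨[], p, [], by simp, hp0, hp, hPF, by simpa using har⟩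
    · unfold PF at hPF
      push Not at hPF
      obtain ⟨p₁, s, p₂, hps, hs0, hr0, hscl, hle⟩ := hPF
      -- `s` is a block
      subst hps
      have h1 : u ++ (p₁ ++ s ++ p₂) ++ v = (u ++ p₁) ++ s ++ (p₂ ++ v) := by simp
      have hcl1 : S.Cl ((u ++ p₁) ++ s ++ (p₂ ++ v)) := by rw [← h1]; exact hcl
      have hcl2 : S.Cl ((u ++ p₁) ++ (p₂ ++ v)) := cl_remove hcl1 hscl
      have hcl3 : S.Cl (p₁ ++ p₂) := cl_remove hp hscl
      have hlen : s.length ≤ N := by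
        have h2 : 0 < (p₁ ++ p₂).length := List.length_pos_iff.2 hr0
        simp only [List.length_append] at hN h2
        omega
      have h3 := hins (u ++ p₁) (p₂ ++ v) s hcl1 hscl
      have h4 : S.ar ((u ++ p₁) ++ (p₂ ++ v)) ≤ S.ar (u ++ v) + S.ar (p₁ ++ p₂) := by
        have h5 : (u ++ p₁) ++ (p₂ ++ v) = u ++ (p₁ ++ p₂) ++ v := by simp
        rw [h5]
        exact hins u v (p₁ ++ p₂) (by rw [← h5]; exact hcl2) hcl3
      have h6 : S.ar ((u ++ p₁) ++ s ++ (p₂ ++ v)) = S.ar s + S.ar ((u ++ p₁) ++ (p₂ ++ v)) := by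
        apply le_antisymm
        · omega
        · rw [← h1, har]
          omega
      obtain ⟨a, q, b, hq, hq0, hqcl, hqPF, hqar⟩ :=
        ih (u ++ p₁) s (p₂ ++ v) hlen hcl1 hscl hs0 h6
      refine ⟨p₁ ++ a, q, b ++ p₂, by rw [hq]; simp, hq0, hqcl, hqPF, ?_⟩
      rw [h1, hqar]
      simp

/-- pinches -/
theorem pinch (hA : AreaStmt) : PinchStmt := by
  intro V E S hSC w hw hw0
  by_cases hPF : S.PF w
  · exact Or.inl hPF
  right
  obtain ⟨-, -, hrot, -, hins, -, -, -⟩ := hA V E S hSC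
  unfold PF at hPF
  push Not at hPF
  obtain ⟨p₁, p, p₂, hwp, hp0, hr0, hpcl, hle⟩ := hPF
  have hwcl : S.Cl (p₁ ++ (p ++ p₂)) := by
    rw [hwp, List.append_assoc] at hw
    exact hw
  have hcl1 : S.Cl (p ++ p₂ ++ p₁) := cl_rotate hwcl
  have har1 : S.ar w = S.ar (p ++ (p₂ ++ p₁)) := by
    rw [hwp, List.append_assoc, hrot p₁ (p ++ p₂) hwcl, List.append_assoc]
  have hcl2 : S.Cl (p₁ ++ p₂) := by
    have : S.Cl (p₁ ++ p ++ p₂) := by rw [← hwp]; exact hw
    exact cl_remove this hpcl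
  have har2 : S.ar (p₁ ++ p₂) = S.ar (p₂ ++ p₁) := hrot _ _ hcl2
  have hcl3 : S.Cl (p₂ ++ p₁) := cl_rotate hcl2
  have hcl4 : S.Cl (p ++ (p₂ ++ p₁)) := by rw [← List.append_assoc]; exact hcl1
  have hr0' : p₂ ++ p₁ ≠ [] := by
    intro h
    apply hr0
    simp only [List.append_eq_nil_iff] at h ⊢
    exact ⟨h.2, h.1⟩
  -- additivity
  have hadd : S.ar (p ++ (p₂ ++ p₁)) = S.ar p + S.ar (p₂ ++ p₁) := by
    apply le_antisymm
    · have := hins [] (p₂ ++ p₁) p (by simpa using hcl4) hpcl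
      simp only [List.nil_append] at this
      omega
    · rw [← har1, ← har2]
      exact hle
  generalize hr : p₂ ++ p₁ = r at *
  obtain ⟨a, q, b, hq, hq0, hqcl, hqPF, hqar⟩ :=
    shortest hins p.length [] p r (le_refl _) (by simpa using hcl4) hpcl hp0 (by simpa using hadd)
  obtain ⟨c, s, d, hs, hs0, hscl, hsPF, hsar⟩ :=
    shortest hins r.length p r [] (le_refl _) (by simpa using hcl4) hcl3 hr0'
      (by simpa [add_comm] using hadd)
  refine ⟨p₁.length, a, q, b ++ c, s, d, ?_, hqcl, hscl, hq0, hs0, hqPF, hsPF, ?_, ?_⟩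
  · have h1 : w.rotate p₁.length = p ++ p₂ ++ p₁ := by
      rw [hwp, List.append_assoc, List.rotate_append_length_eq]
    rw [h1, List.append_assoc, hr, hq, hs]
    simp
  · rw [har1]
    simp only [List.nil_append] at hqar
    rw [hqar, add_comm, hs]
    simp
  · rw [har1]
    simp only [List.append_nil] at hsar
    rw [hsar, add_comm, hq]
    simp

end Pool.Agent.ABA.B.H31
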